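import Mathlib
import Pool.Agent.H.MP_19acf5_gt.E

open Set

namespace Pool.Agent.Results.MP_19acf5_gt.Both

universe u

def Cont {Z : Type u} [TopologicalSpace Z] (A : Set Z) : Prop := IsCompact A ∧ IsConnected A

def Indec {Z : Type u} [TopologicalSpace Z] (R : Set Z) : Prop :=
  Cont R ∧ ¬ ∃ A B : Set Z, Cont A ∧ A ⊂ R ∧ Cont B ∧ B ⊂ R ∧ A ∪ B = R

def Hyp (X : Type u) [MetricSpace X] (p : X) : Prop :=
  Cont (univ : Set X) ∧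
    Indec (range (stoneCechUnit : {x : X // x ≠ p} → StoneCech {x : X // x ≠ p}))ᶜ

def Irred {X : Type u} [TopologicalSpace X] (K : Set X) (q p : X) : Prop :=
  Cont K ∧ q ∈ K ∧ p ∈ K ∧ ∀ L : Set X, Cont L → L ⊆ K → q ∈ L → p ∈ L → L = K

theorem result :
    (∀ (X : Type u) [MetricSpace X] (p : X), Hyp X p → ∀ U : Set X, IsOpen U → p ∈ U →
      ∃ C : Set X, IsConnected C ∧ C ⊆ U ∧ p ∈ interior C) ∧
    (∃ (X : Type) (_ : MetricSpace X) (p : X), Hyp X p ∧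
      ¬ ∃ (M : Set X) (q : X) (K : Set X), IsCompact M ∧ p ∉ M ∧ Irred K q p ∧ M ∪ K = univ) := by
  constructor
  · rintro X _ p ⟨⟨h1, -⟩, ⟨-, h2⟩, h3⟩ U hU hp
    haveI : CompactSpace X := isCompact_univ_iff.1 h1
    refine H.MP_19acf5_gt.cik h2 ?_ U hU hp
    rintro ⟨A, B, a1, a2, a3, b1, b2, b3, h⟩
    exact h3 ⟨A, B, ⟨a1, a2⟩, a3, ⟨b1, b2⟩, b3, h⟩
  · obtain ⟨X, _, hc, ⟨R⟩⟩ := H.MP_19acf5_gt.exRz
    haveI := R.conn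
    refine ⟨X, inferInstance, R.p, ⟨⟨isCompact_univ, isConnected_univ⟩,
      ⟨H.MP_19acf5_gt.rem_closed.isCompact, R.rem_conn⟩, ?_⟩, ?_⟩
    · rintro ⟨A, B, ⟨a1, a2⟩, a3, ⟨b1, b2⟩, b3, h⟩
      exact H.MP_19acf5_gt.indec_crit R.cuts ⟨A, B, a1, a2, a3, b1, b2, b3, h⟩
    · rintro ⟨M, q, K, h1, h2, ⟨⟨h3, h4⟩, h5, h6, h7⟩, h8⟩
      exact R.notQ2 M q K h1 h2 h3 h4 h5 h6 (fun L a b => h7 L ⟨a, b⟩) h8

end Pool.Agent.Results.MP_19acf5_gt.Both
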